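import Mathlib

set_option autoImplicit false

/-!
# Finite free `G`-simplicial posets and the cross-index
-/

namespace Pool.Agent.Q155.XI

/-- A finite free `G`-simplicial poset: a finite partially ordered set in which every set
`{q | q ≤ p}` is isomorphic to the poset of the nonempty subsets of a finite set, with an action of
`G` by order-preserving maps such that `g • p = p` only for `g = 1`. -/
structure FreeSimplicialPoset (G : Type) [Group G] where
  /-- the elements -/
  P : Type
  [ord : PartialOrder P]
  [act : MulAction G P]
  finite : Finite P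
  simplicial : ∀ p : P, ∃ n : ℕ,
    Nonempty ({q : P // q ≤ p} ≃o {s : Finset (Fin n) // s.Nonempty})
  smul_le : ∀ (g : G) (p q : P), p ≤ q → g • p ≤ g • q
  free : ∀ (g : G) (p : P), g • p = p → g = 1

attribute [instance] FreeSimplicialPoset.ord FreeSimplicialPoset.act

/-- The underlying set `G × {0, …, n}` of the poset `Q_n G`. -/
def Qn (G : Type) (n : ℕ) : Type := G × Fin (n + 1)

/-- The order of `Q_n G`: `(g, i) < (h, j)` if and only if `i < j`. -/
instance (G : Type) (n : ℕ) : PartialOrder (Qn G n) where
  le x y := x = y ∨ x.2 < y.2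
  le_refl x := Or.inl rfl
  le_trans x y w h h' := by
    rcases h with rfl | h
    · exact h'
    · rcases h' with rfl | h'
      · exact Or.inr h
      · exact Or.inr (h.trans h')
  le_antisymm x y h h' := by
    rcases h with h | h
    · exact h
    · rcases h' with h' | h'
      · exact h'.symm
      · exact absurd (h.trans h') (lt_irrefl _)

/-- The action of `G` on `Q_n G`: `g • (h, i) = (g h, i)`. -/
instance (G : Type) [Group G] (n : ℕ) : MulAction G (Qn G n) where
  smul g x := (g * x.1, x.2)
  one_smul x := Prod.ext (one_mul x.1) rfl
  mul_smul g h x := Prod.ext (mul_assoc g h x.1) rfl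

/-- `G`-maps: order-preserving equivariant maps. -/
def IsGMap (G : Type) [Group G] {P Q : Type} [PartialOrder P] [PartialOrder Q] [MulAction G P]
    [MulAction G Q] (f : P → Q) : Prop :=
  (∀ p q : P, p ≤ q → f p ≤ f q) ∧ ∀ (g : G) (p : P), f (g • p) = g • f p

/-- The cross-index: the least `n` such that there is a `G`-map to `Q_n G` (and `⊤` if there is
none). -/
noncomputable def Xind (G : Type) [Group G] (P : Type) [PartialOrder P] [MulAction G P] : ℕ∞ :=
  sInf {m : ℕ∞ | ∃ n : ℕ, m = n ∧ ∃ f : P → Qn G n, IsGMap G f}

end Pool.Agent.Q155.XI
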