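import Pool.Agent.Q155.XI.Defs
import Pool.Agent.Results.MP_19f4d1_co.NiceGroups

set_option autoImplicit false
set_option linter.unusedSectionVars false

/-! The face poset of a `G`-complex; its cross-index is at least the index of the realization. -/

namespace Pool.Agent.Q155.XI

open Pool.Agent.Results.MP_19f4d1_co.CyclicOrderFour Pool.Agent.Y806.NG

variable {G : Type} [Group G]

/-- The faces. -/
def Face (X : GComplex G) : Type := {s : Finset X.V // s ∈ X.K.faces}

instance (X : GComplex G) : PartialOrder (Face X) :=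
  inferInstanceAs (PartialOrder {s : Finset X.V // s ∈ X.K.faces})

instance (X : GComplex G) : Finite (Face X) :=
  inferInstanceAs (Finite {s : Finset X.V // s ∈ X.K.faces})

theorem Face.ext {X : GComplex G} {s t : Face X} (h : ∀ v, v ∈ s.1 ↔ v ∈ t.1) : s = t :=
  Subtype.ext (Finset.ext h)

instance (X : GComplex G) : MulAction G (Face X) where
  smul g s := ⟨s.1.map (MulAction.toPerm g).toEmbedding, X.smul_mem g s.1 s.2⟩
  one_smul s := Face.ext fun v => by
    show v ∈ s.1.map (MulAction.toPerm (1 : G)).toEmbedding ↔ v ∈ s.1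
    simp
  mul_smul g h s := Face.ext fun v => by
    show v ∈ s.1.map (MulAction.toPerm (g * h)).toEmbedding ↔
      v ∈ (s.1.map (MulAction.toPerm h).toEmbedding).map (MulAction.toPerm g).toEmbedding
    simp [mul_smul]

theorem mem_smul {X : GComplex G} (g : G) (s : Face X) (v : X.V) :
    v ∈ (g • s).1 ↔ g⁻¹ • v ∈ s.1 := by
  show v ∈ s.1.map (MulAction.toPerm g).toEmbedding ↔ _
  rw [Finset.mem_map]
  constructor
  · rintro ⟨w, hw, rfl⟩
    simpa using hw
  · intro h
    exact ⟨_, h, by simp⟩

theorem smul_mem_smul {X : GComplex G} (g : G) {s : Face X} {v : X.V} (h : v ∈ s.1) :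
    g • v ∈ (g • s).1 := by
  rw [mem_smul, inv_smul_smul]
  exact h

theorem Face.nonempty {X : GComplex G} (s : Face X) : s.1.Nonempty :=
  (X.K.isRelLowerSet_faces s.2).1

theorem Face.sub {X : GComplex G} (s : Face X) {t : Finset X.V} (h : t ⊆ s.1) (ht : t.Nonempty) :
    t ∈ X.K.faces :=
  (X.K.isRelLowerSet_faces s.2).2 h ht

/-- The lower set of a face. -/
noncomputable def lowerIso {X : GComplex G} (s : Face X) :
    {q : Face X // q ≤ s} ≃o {u : Finset (Fin s.1.card) // u.Nonempty} := by
  classical
  let e := s.1.equivFin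
  refine
    { toFun := fun q => ⟨Finset.univ.filter (fun i => (e.symm i).1 ∈ q.1.1), ?_⟩
      invFun := fun u => ⟨⟨u.1.map ((e.symm.toEmbedding).trans (Function.Embedding.subtype _)), ?_⟩, ?_⟩
      left_inv := ?_
      right_inv := ?_
      map_rel_iff' := ?_ }
  · obtain ⟨v, hv⟩ := q.1.nonempty
    refine ⟨e ⟨v, q.2 hv⟩, ?_⟩
    simpa using hv
  · refine s.sub ?_ ?_
    · intro v hv
      obtain ⟨i, -, rfl⟩ := Finset.mem_map.1 hv
      exact (e.symm i).2
    · exact u.2.map
  · intro v hv
    obtain ⟨i, -, rfl⟩ := Finset.mem_map.1 hv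
    exact (e.symm i).2
  · intro q
    refine Subtype.ext (Face.ext fun v => ?_)
    constructor
    · intro hv
      obtain ⟨i, hi, rfl⟩ := Finset.mem_map.1 hv
      simpa using hi
    · intro hv
      refine Finset.mem_map.2 ⟨e ⟨v, q.2 hv⟩, ?_, ?_⟩
      · simpa using hv
      · simp
  · intro u
    refine Subtype.ext (Finset.ext fun i => ?_)
    simp only [Finset.mem_filter, Finset.mem_univ, true_and, Finset.mem_map]
    constructor
    · rintro ⟨j, hj, hj2⟩
      have : e.symm j = e.symm i := Subtype.ext hj2
      rw [← e.symm.injective this]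
      exact hj
    · intro hi
      exact ⟨i, hi, rfl⟩
  · intro q r
    constructor
    · intro h
      show q.1.1 ⊆ r.1.1
      intro v hv
      have h1 : e ⟨v, q.2 hv⟩ ∈ Finset.univ.filter (fun i => (e.symm i).1 ∈ q.1.1) := by
        simpa using hv
      have h2 := h h1
      have h3 := (Finset.mem_filter.1 h2).2
      rw [Equiv.symm_apply_apply] at h3
      exact h3
    · intro h i hi
      exact Finset.mem_filter.2 ⟨Finset.mem_univ _, h (Finset.mem_filter.1 hi).2⟩

open Classical in
/-- The barycenter of a face. -/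
noncomputable def bary {X : GComplex G} (s : Face X) : X.Realization where
  val v := if v ∈ s.1 then ((s.1.card : ℝ))⁻¹ else 0
  nonneg v := by
    split_ifs
    · positivity
    · exact le_rfl
  sum_eq := by
    rw [← Finset.sum_filter, Finset.sum_const, nsmul_eq_mul]
    have : (Finset.univ.filter fun v => v ∈ s.1) = s.1 := Finset.ext fun v =>
      ⟨fun h => (Finset.mem_filter.1 h).2, fun h => Finset.mem_filter.2 ⟨Finset.mem_univ _, h⟩⟩
    rw [this]
    refine mul_inv_cancel₀ ?_
    have := s.nonempty.card_pos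
    exact_mod_cast this.ne'
  supp := ⟨s.1, s.2, fun v hv => by
    by_contra h
    exact hv (if_neg h)⟩

theorem bary_smul {X : GComplex G} (g : G) (s : Face X) : bary (g • s) = g • bary s := by
  classical
  refine GComplex.Realization.ext (funext fun v => ?_)
  rw [smul_val]
  have hc : (g • s).1.card = s.1.card := Finset.card_map _
  show (if v ∈ (g • s).1 then (((g • s).1.card : ℝ))⁻¹ else 0) =
    if g⁻¹ • v ∈ s.1 then ((s.1.card : ℝ))⁻¹ else 0
  rw [hc]
  simp only [mem_smul]

/-- The face poset of a free `G`-complex is a free `G`-simplicial poset. -/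
noncomputable def facePoset (X : GComplex G) (hX : X.IsFree) : FreeSimplicialPoset G where
  P := Face X
  finite := inferInstance
  simplicial s := ⟨_, ⟨lowerIso s⟩⟩
  smul_le g s t h := by
    intro v hv
    rw [mem_smul] at hv ⊢
    exact h hv
  free g s h := hX g (bary s) (by rw [← bary_smul, h])

/-! ### The lower bound for the cross-index -/

open Classical in
/-- The weight of a face in the barycentric subdivision. -/
noncomputable def lam {X : GComplex G} (s : Face X) (x : X.Realization) : ℝ :=
  (∏ v : X.V, if v ∈ s.1 then x.val v else 1) *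
    ∏ v : X.V, ∏ u : X.V, if v ∈ s.1 ∧ u ∉ s.1 then max 0 (x.val v - x.val u) else 1

theorem lam_nonneg {X : GComplex G} (s : Face X) (x : X.Realization) : 0 ≤ lam s x := by
  classical
  unfold lam
  refine mul_nonneg (Finset.prod_nonneg fun v _ => ?_) (Finset.prod_nonneg fun v _ =>
    Finset.prod_nonneg fun u _ => ?_)
  · split_ifs
    · exact x.nonneg v
    · exact zero_le_one
  · split_ifs
    · exact le_max_left _ _
    · exact zero_le_one

theorem lam_continuous {X : GComplex G} (s : Face X) :
    Continuous fun x : X.Realization => lam s x := by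
  classical
  have hv : ∀ v : X.V, Continuous fun x : X.Realization => x.val v := fun v =>
    (continuous_apply v).comp (continuous_val X)
  unfold lam
  refine Continuous.mul (continuous_finsetProd _ fun v _ => ?_)
    (continuous_finsetProd _ fun v _ => continuous_finsetProd _ fun u _ => ?_)
  · split_ifs
    · exact hv v
    · exact continuous_const
  · split_ifs
    · exact continuous_const.max ((hv v).sub (hv u))
    · exact continuous_const

theorem lam_ne {X : GComplex G} {s : Face X} {x : X.Realization} (h : lam s x ≠ 0) :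
    ∀ v ∈ s.1, ∀ u, u ∉ s.1 → x.val u < x.val v := by
  classical
  intro v hv u hu
  by_contra hc
  push Not at hc
  apply h
  unfold lam
  have h1 : (∏ v : X.V, ∏ u : X.V, if v ∈ s.1 ∧ u ∉ s.1 then max 0 (x.val v - x.val u) else 1) =
      0 := by
    refine Finset.prod_eq_zero (Finset.mem_univ v) (Finset.prod_eq_zero (Finset.mem_univ u) ?_)
    rw [if_pos ⟨hv, hu⟩, max_eq_left (by linarith)]
  rw [h1, mul_zero]

theorem lam_smul {X : GComplex G} (g : G) (s : Face X) (x : X.Realization) :
    lam (g • s) (g • x) = lam s x := by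
  classical
  unfold lam
  congr 1
  · refine (Fintype.prod_equiv (MulAction.toPerm g) _ _ fun v => ?_).symm
    show (if v ∈ s.1 then x.val v else 1) = if g • v ∈ (g • s).1 then (g • x).val (g • v) else 1
    rw [smul_val, inv_smul_smul]
    simp only [mem_smul, inv_smul_smul]
  · refine (Fintype.prod_equiv (MulAction.toPerm g) _ _ fun v => ?_).symm
    refine Fintype.prod_equiv (MulAction.toPerm g) _ _ fun u => ?_
    show (if v ∈ s.1 ∧ u ∉ s.1 then max 0 (x.val v - x.val u) else 1) =
      if g • v ∈ (g • s).1 ∧ g • u ∉ (g • s).1 then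
        max 0 ((g • x).val (g • v) - (g • x).val (g • u)) else 1
    rw [smul_val, smul_val, inv_smul_smul, inv_smul_smul]
    simp only [mem_smul, inv_smul_smul]

noncomputable instance (X : GComplex G) : Fintype (Face X) := Fintype.ofFinite _

theorem exists_lam {X : GComplex G} (x : X.Realization) : ∃ s : Face X, 0 < lam s x := by
  classical
  obtain ⟨t, ht, hs⟩ := x.supp
  have hne : (Finset.univ.filter fun v => x.val v ≠ 0).Nonempty := by
    by_contra h
    rw [Finset.not_nonempty_iff_eq_empty] at h
    have h1 : ∑ v, x.val v = 0 := Finset.sum_eq_zero fun v _ => by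
      by_contra hv
      have : v ∈ Finset.univ.filter (fun v => x.val v ≠ 0) := by simpa using hv
      rw [h] at this
      simp at this
    rw [x.sum_eq] at h1
    exact one_ne_zero h1
  have hsub : (Finset.univ.filter fun v => x.val v ≠ 0) ⊆ t := fun v hv => hs v (by simpa using hv)
  refine ⟨⟨_, Face.sub ⟨t, ht⟩ hsub hne⟩, ?_⟩
  unfold lam
  refine mul_pos (Finset.prod_pos fun v _ => ?_) (Finset.prod_pos fun v _ =>
    Finset.prod_pos fun u _ => ?_)
  · split_ifs with h
    · have h1 : x.val v ≠ 0 := by simpa using h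
      exact lt_of_le_of_ne (x.nonneg v) h1.symm
    · exact one_pos
  · split_ifs with h
    · have h1 : x.val v ≠ 0 := by simpa using h.1
      have h2 : x.val u = 0 := by simpa using h.2
      rw [h2, sub_zero]
      exact lt_of_lt_of_le (lt_of_le_of_ne (x.nonneg v) h1.symm) (le_max_right _ _)
    · exact one_pos

/-- The total weight. -/
noncomputable def tot {X : GComplex G} (x : X.Realization) : ℝ := ∑ s : Face X, lam s x

theorem tot_pos {X : GComplex G} (x : X.Realization) : 0 < tot x := by
  obtain ⟨s, hs⟩ := exists_lam x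
  exact Finset.sum_pos' (fun s _ => lam_nonneg s x) ⟨s, Finset.mem_univ _, hs⟩

theorem tot_smul {X : GComplex G} (g : G) (x : X.Realization) : tot (g • x) = tot x := by
  unfold tot
  refine (Fintype.sum_equiv (MulAction.toPerm g) _ _ fun s => ?_).symm
  exact (lam_smul g s x).symm

/-- Two faces with nonzero weight are comparable. -/
theorem lam_comp {X : GComplex G} {s t : Face X} {x : X.Realization} (hs : lam s x ≠ 0)
    (ht : lam t x ≠ 0) : s ≤ t ∨ t ≤ s := by
  by_contra hc
  push Not at hc
  obtain ⟨h1, h2⟩ := hc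
  have h1' : ¬ (s.1 ⊆ t.1) := h1
  have h2' : ¬ (t.1 ⊆ s.1) := h2
  rw [Finset.not_subset] at h1' h2'
  obtain ⟨v, hv, hv'⟩ := h1'
  obtain ⟨u, hu, hu'⟩ := h2'
  have a := lam_ne hs v hv u hu'
  have b := lam_ne ht u hu v hv'
  exact lt_asymm a b

section
variable [Fintype G] {X : GComplex G} {n : ℕ}

open Classical in
/-- The weight of a vertex of `E_n G`. -/
noncomputable def wq (ψ : Face X → Qn G n) (x : X.Realization) (q : Fin (n + 1) × G) : ℝ :=
  (∑ s : Face X, if ψ s = (q.2, q.1) then lam s x else 0) / tot x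

theorem wq_nonneg (ψ : Face X → Qn G n) (x : X.Realization) (q) : 0 ≤ wq ψ x q := by
  classical
  unfold wq
  refine div_nonneg (Finset.sum_nonneg fun s _ => ?_) (tot_pos x).le
  split_ifs
  · exact lam_nonneg s x
  · exact le_rfl

theorem wq_sum (ψ : Face X → Qn G n) (x : X.Realization) : ∑ q, wq ψ x q = 1 := by
  classical
  unfold wq
  rw [← Finset.sum_div, Finset.sum_comm, div_eq_one_iff_eq (tot_pos x).ne']
  refine Finset.sum_congr rfl fun s _ => ?_
  rw [Finset.sum_eq_single ((ψ s).2, (ψ s).1)]
  · exact if_pos rfl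
  · rintro ⟨i, a⟩ - hne
    refine if_neg fun h => hne ?_
    rw [h]
  · intro h
    exact absurd (Finset.mem_univ _) h

theorem wq_exists {ψ : Face X → Qn G n} {x : X.Realization} {q : Fin (n + 1) × G}
    (h : wq ψ x q ≠ 0) : ∃ s : Face X, lam s x ≠ 0 ∧ ψ s = (q.2, q.1) := by
  classical
  unfold wq at h
  have h1 : (∑ s : Face X, if ψ s = (q.2, q.1) then lam s x else 0) ≠ 0 := by
    intro h0
    rw [h0, zero_div] at h
    exact h rfl
  obtain ⟨s, -, hs⟩ := Finset.exists_ne_zero_of_sum_ne_zero h1
  split_ifs at hs with h2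
  · exact ⟨s, hs, h2⟩
  · exact absurd rfl hs

theorem qn_le {x y : Qn G n} (h : x ≤ y) (h2 : x.2 = y.2) : x = y := by
  rcases h with h | h
  · exact h
  · rw [h2] at h
    exact absurd h (lt_irrefl _)

theorem wq_rel {ψ : Face X → Qn G n} (hψ : IsGMap G ψ) (x : X.Realization)
    (q r : Fin (n + 1) × G) (hq : wq ψ x q ≠ 0) (hr : wq ψ x r ≠ 0) (h : q.1 = r.1) : q = r := by
  obtain ⟨s, hs, hs'⟩ := wq_exists hq
  obtain ⟨t, ht, ht'⟩ := wq_exists hr
  have key : ψ s = ψ t := by
    rcases lam_comp hs ht with hst | hst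
    · refine qn_le (hψ.1 s t hst) ?_
      rw [hs', ht']
      exact h
    · refine (qn_le (hψ.1 t s hst) ?_).symm
      rw [hs', ht']
      exact h.symm
  rw [hs', ht'] at key
  exact Prod.ext h (congrArg Prod.fst key)

/-- The continuous map given by a `G`-map. -/
noncomputable def rmap {ψ : Face X → Qn G n} (hψ : IsGMap G ψ) (x : X.Realization) :
    (E G n).Realization :=
  letI := joinAction G n
  mkPoint (G := G) (V := Fin (n + 1) × G) (fun q => wq ψ x q) (fun q => wq_nonneg ψ x q)
    (wq_sum ψ x) (fun q r hq hr h => wq_rel hψ x q r hq hr h)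

theorem cg_rmap {ψ : Face X → Qn G n} (hψ : IsGMap G ψ) (x : X.Realization)
    (q : Fin (n + 1) × G) : cg (rmap hψ x) q = wq ψ x q := rfl

theorem wq_continuous (ψ : Face X → Qn G n) (q : Fin (n + 1) × G) :
    Continuous fun x : X.Realization => wq ψ x q := by
  classical
  unfold wq
  refine Continuous.div ?_ ?_ fun x => (tot_pos x).ne'
  · refine continuous_finsetSum _ fun s _ => ?_
    split_ifs
    · exact lam_continuous s
    · exact continuous_const
  · unfold tot
    exact continuous_finsetSum _ fun s _ => lam_continuous s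

theorem wq_smul {ψ : Face X → Qn G n} (hψ : IsGMap G ψ) (g : G) (x : X.Realization)
    (i : Fin (n + 1)) (a : G) : wq ψ (g • x) (i, a) = wq ψ x (i, g⁻¹ * a) := by
  classical
  unfold wq
  rw [tot_smul]
  congr 1
  refine (Fintype.sum_equiv (MulAction.toPerm g) _ _ fun s => ?_).symm
  show (if ψ s = (g⁻¹ * a, i) then lam s x else 0) =
    if ψ (g • s) = (a, i) then lam (g • s) (g • x) else 0
  rw [lam_smul, hψ.2]
  have : (ψ s = (g⁻¹ * a, i)) ↔ (g • ψ s = (a, i)) := by
    constructor
    · intro h
      rw [h]
      exact Prod.ext (mul_inv_cancel_left g a) rfl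
    · intro h
      have h1 : g * (ψ s).1 = a := congrArg Prod.fst h
      have h2 : (ψ s).2 = i := congrArg Prod.snd h
      exact Prod.ext (eq_inv_mul_of_mul_eq h1) h2
  simp only [this]

/-- The cross-index of the face poset is at least the index of the realization. -/
theorem ind_le_Xind (X : GComplex G) : ind G X.Realization ≤ Xind G (Face X) := by
  refine le_sInf ?_
  rintro m ⟨n, rfl, ψ, hψ⟩
  refine sInf_le ⟨n, rfl, rmap hψ, ?_, ?_⟩
  · refine (continuous_iff_val (E G n) _).2 fun v => ?_
    exact wq_continuous ψ v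
  · intro g x
    refine GComplex.Realization.ext (funext ?_)
    rintro ⟨i, a⟩
    exact wq_smul hψ g x i a

end

end Pool.Agent.Q155.XI
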