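import Pool.Agent.Q155.XI.Face

set_option autoImplicit false
set_option linter.unusedSectionVars false

/-! The product of the two face posets has cross-index at most one. -/

namespace Pool.Agent.Q155.XI

open Pool.Agent.Results.MP_19f4d1_co.CyclicOrderFour Pool.Agent.Y806.NG

variable {G : Type} [Group G] [Fintype G] {z : G} {p : ℕ} [NeZero p]

/-- The functions in a face of the first complex. -/
def fs (s : Face (K1 z p)) : Finset (V1 z p) := s.1

/-- The vertices in a face of the second complex. -/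
def ps (t : Face (K2 z)) : Finset (Fin 3 × G) := t.1

theorem fs_rel (s : Face (K1 z p)) {f f' : V1 z p} (hf : f ∈ fs s) (hf' : f' ∈ fs s) (g : G)
    (h : (f.1 g).1 = (f'.1 g).1) : f.1 g = f'.1 g := by
  let _ := act1 z p
  exact (show (fs s) ∈ (K1 z p).K.faces from s.2).2 f hf f' hf' g h

theorem ps_rel (t : Face (K2 z)) {q r : Fin 3 × G} (hq : q ∈ ps t) (hr : r ∈ ps t) :
    (q.1 = r.1 → q = r) ∧ q.2⁻¹ * r.2 ∈ Subgroup.zpowers z := by
  let _ := joinAction G 2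
  exact (show (ps t) ∈ (K2 z).K.faces from t.2).2 q hq r hr

/-- `(j, b)` is a value of the evaluation map on the pair of faces. -/
def Ev (s : Face (K1 z p)) (t : Face (K2 z)) (j : Fin 2) (b : G) : Prop :=
  ∃ f ∈ fs s, ∃ q ∈ ps t, q.2⁻¹ * b ∈ Subgroup.zpowers z ∧ f.1 b⁻¹ = (j, 0)

theorem Ev.mono {s s' : Face (K1 z p)} {t t' : Face (K2 z)} (hs : s ≤ s') (ht : t ≤ t')
    {j : Fin 2} {b : G} (h : Ev s t j b) : Ev s' t' j b := by
  obtain ⟨f, hf, q, hq, h1, h2⟩ := h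
  exact ⟨f, hs hf, q, ht hq, h1, h2⟩

theorem Ev.smul {s : Face (K1 z p)} {t : Face (K2 z)} {j : Fin 2} {b : G} (h : Ev s t j b)
    (g : G) : Ev (g • s) (g • t) j (g * b) := by
  obtain ⟨f, hf, q, hq, h1, h2⟩ := h
  refine ⟨tr g f, ?_, (q.1, g * q.2), ?_, ?_, ?_⟩
  · exact smul_mem_smul (X := K1 z p) g hf
  · exact smul_mem_smul (X := K2 z) g hq
  · show (g * q.2)⁻¹ * (g * b) ∈ _
    rw [mul_inv_rev, mul_assoc, inv_mul_cancel_left]
    exact h1
  · show f.1 ((g * b)⁻¹ * g) = (j, 0)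
    rw [mul_inv_rev, inv_mul_cancel_right]
    exact h2

theorem Ev.exists (_hz : orderOf z = p) (s : Face (K1 z p)) (t : Face (K2 z)) :
    ∃ j b, Ev s t j b := by
  obtain ⟨f, hf⟩ := s.nonempty
  obtain ⟨q, hq⟩ := t.nonempty
  have hf' : f ∈ fs s := hf
  have hq' : q ∈ ps t := hq
  change V1 z p at f
  change Fin 3 × G at q
  set i : ℤ := ((((f.1 q.2⁻¹).2).val : ℕ) : ℤ) with hi
  have hic : ((i : ℤ) : ZMod p) = (f.1 q.2⁻¹).2 := by
    rw [hi]
    simp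
  refine ⟨(f.1 q.2⁻¹).1, q.2 * z ^ i, f, hf', q, hq', ?_, ?_⟩
  · rw [inv_mul_cancel_left]
    exact Subgroup.zpow_mem_zpowers z i
  · rw [mul_inv_rev, ← zpow_neg, V1_zpow]
    push_cast
    rw [hic, add_neg_cancel]

theorem Ev.unique (hz : orderOf z = p) {s : Face (K1 z p)} {t : Face (K2 z)} {j : Fin 2}
    {b b' : G} (h : Ev s t j b) (h' : Ev s t j b') : b = b' := by
  obtain ⟨f, hf, q, hq, h1, h2⟩ := h
  obtain ⟨f', hf', q', hq', h1', h2'⟩ := h'
  have h3 : b⁻¹ * b' ∈ Subgroup.zpowers z := by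
    have e : b⁻¹ * b' = (q.2⁻¹ * b)⁻¹ * (q.2⁻¹ * q'.2) * (q'.2⁻¹ * b') := by group
    rw [e]
    exact mul_mem (mul_mem (inv_mem h1) (ps_rel t hq hq').2) h1'
  obtain ⟨n, hn⟩ := Subgroup.mem_zpowers_iff.1 h3
  have hb : b' = b * z ^ n := by rw [hn, mul_inv_cancel_left]
  rw [hb, mul_inv_rev, ← zpow_neg, V1_zpow] at h2'
  have g1 := congrArg Prod.fst h2'
  have g2 := congrArg Prod.snd h2'
  simp only at g1 g2
  push_cast at g2
  have h5 := fs_rel s hf hf' b⁻¹ (by rw [h2, g1])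
  rw [← h5, h2, zero_add, neg_eq_zero] at g2
  have h6 : z ^ n = 1 := by
    rw [← orderOf_dvd_iff_zpow_eq_one, hz]
    exact (ZMod.intCast_zmod_eq_zero_iff_dvd _ _).1 g2
  rw [hb, h6, mul_one]

/-- The value of the map to `Q_1 G`. -/
def Val (s : Face (K1 z p)) (t : Face (K2 z)) (x : Qn G 1) : Prop :=
  (x.2 = 1 ∧ Ev s t 0 x.1 ∧ ∃ b, Ev s t 1 b) ∨
    (x.2 = 0 ∧ ∃ j, Ev s t j x.1 ∧ ∀ i b, Ev s t i b → i = j)

theorem Val.exists (hz : orderOf z = p) (s : Face (K1 z p)) (t : Face (K2 z)) :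
    ∃ x, Val s t x := by
  by_cases h0 : ∃ b, Ev s t 0 b
  · obtain ⟨b, hb⟩ := h0
    by_cases h1 : ∃ b, Ev s t 1 b
    · exact ⟨(b, 1), Or.inl ⟨rfl, hb, h1⟩⟩
    · refine ⟨(b, 0), Or.inr ⟨rfl, 0, hb, fun i b' hb' => ?_⟩⟩
      by_contra hi
      have : i = 1 := by omega
      exact h1 ⟨b', this ▸ hb'⟩
  · obtain ⟨j, b, hb⟩ := Ev.exists hz s t
    refine ⟨(b, 0), Or.inr ⟨rfl, j, hb, fun i b' hb' => ?_⟩⟩
    have hi : i ≠ 0 := by
      rintro rfl
      exact h0 ⟨b', hb'⟩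
    have hj : j ≠ 0 := by
      rintro rfl
      exact h0 ⟨b, hb⟩
    omega

theorem Val.le (hz : orderOf z = p) {s s' : Face (K1 z p)} {t t' : Face (K2 z)} (hs : s ≤ s')
    (ht : t ≤ t') {x y : Qn G 1} (hx : Val s t x) (hy : Val s' t' y) : x ≤ y := by
  rcases hx with ⟨x2, h0, b1, h1⟩ | ⟨x2, j, hj, hu⟩
  · rcases hy with ⟨y2, k0, -⟩ | ⟨y2, i, hi, hv⟩
    · left
      exact Prod.ext (Ev.unique hz (h0.mono hs ht) k0) (x2.trans y2.symm)
    · have e0 := hv _ _ (h0.mono hs ht)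
      have e1 := hv _ _ (h1.mono hs ht)
      rw [← e0] at e1
      exact absurd e1 (by decide)
  · rcases hy with ⟨y2, k0, -⟩ | ⟨y2, i, hi, hv⟩
    · right
      rw [x2, y2]
      decide
    · left
      have e0 := hv _ _ (hj.mono hs ht)
      subst e0
      exact Prod.ext (Ev.unique hz (hj.mono hs ht) hi) (x2.trans y2.symm)

theorem Val.smul {s : Face (K1 z p)} {t : Face (K2 z)} {x : Qn G 1} (h : Val s t x) (g : G) :
    Val (g • s) (g • t) (g • x) := by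
  rcases h with ⟨x2, h0, b1, h1⟩ | ⟨x2, j, hj, hu⟩
  · exact Or.inl ⟨x2, h0.smul g, _, h1.smul g⟩
  · refine Or.inr ⟨x2, j, hj.smul g, fun i b hb => ?_⟩
    have h2 := hb.smul g⁻¹
    rw [inv_smul_smul, inv_smul_smul] at h2
    exact hu _ _ h2

/-- The cross-index of the product is at most one. -/
theorem Xind_prod (hz : orderOf z = p) : Xind G (Face (K1 z p) × Face (K2 z)) ≤ 1 := by
  choose ψ hψ using fun w : Face (K1 z p) × Face (K2 z) => Val.exists hz w.1 w.2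
  refine sInf_le ⟨1, rfl, ψ, fun w w' h => Val.le hz h.1 h.2 (hψ w) (hψ w'), fun g w => ?_⟩
  exact le_antisymm (Val.le hz le_rfl le_rfl (hψ (g • w)) ((hψ w).smul g))
    (Val.le hz le_rfl le_rfl ((hψ w).smul g) (hψ (g • w)))

/-- **Nice groups of non-prime order.** -/
theorem nice_case (G : Type) [Group G] [Fintype G] (hG : IsNice G)
    (hn : ¬ (Nat.card G).Prime) :
    ∃ P₁ P₂ : FreeSimplicialPoset G, 2 ≤ Xind G P₁.P ∧ 2 ≤ Xind G P₂.P ∧
      Xind G (P₁.P × P₂.P) ≤ 1 := by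
  obtain ⟨p, c, hp, hc, hcomm, hU⟩ := nice_structure hG hn
  have : NeZero p := ⟨by omega⟩
  have hz : orderOf (c ^ p) = p := by
    have hp0 : p ≠ 0 := by omega
    rw [orderOf_pow_of_dvd hp0 (by rw [hc]; exact dvd_pow_self p (by norm_num)), hc, pow_two,
      Nat.mul_div_cancel _ (by omega)]
  refine ⟨facePoset (K1 (c ^ p) p) (K1_free hp hU), facePoset (K2 (c ^ p)) K2_free, ?_, ?_, ?_⟩
  · exact (K1_index hp hc hcomm).trans (ind_le_Xind _)
  · exact (K2_index (c ^ p) hp hz).trans (ind_le_Xind _)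
  · exact Xind_prod hz

end Pool.Agent.Q155.XI
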